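import Pool.Agent.Lib.MP_42179e_co.Main

/-!
If an infinite ternary word that is square-free, square-free modulo `p` and square-free modulo `q`
exists, then the language of such finite words has growth rate greater than one.
-/

namespace Pool.Agent.Results.MP_42179e_co.Growth

open Pool.Agent.Lib.MP_42179e_co

theorem result : ∀ p q : ℕ, 0 < p → 0 < q → (∃ w : ℕ → Fin 3, InfGood p q w) →
    ∃ l : ℝ, 1 < l ∧ Filter.Tendsto (fun n : ℕ => ((count p q n : ℕ) : ℝ) ^ (1 / (n : ℝ)))
      Filter.atTop (nhds l) :=
  main

end Pool.Agent.Results.MP_42179e_co.Growth
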